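import Pool.Agent.Q205.WV.Stm

/-! Project WV (helper205), job WV-LEVA: the first level, analytic part. -/

set_option autoImplicit false

namespace Pool.Agent.Q158.WV.LEVA

open MeasureTheory Filter Pool.Agent.W792.LL Pool.Agent.W792.WA Pool.Agent.Q205.WV
open scoped Topology

theorem meas_cayx (x : ℂ) : Measurable (cayx x) := by
  unfold cayx
  fun_prop

theorem cayx_add (x : ℂ) (a b : ℝ) : cayx x (a + b) = cayx (x + b) a := by
  unfold cayx
  push_cast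
  rw [show x + ((a : ℂ) + b) = x + b + a by ring]

theorem frac_le {u s : ℂ} {η : ℝ} (hη : 0 < η) (hu : ‖u‖ ≤ 1) (hs : ‖s‖ ≤ 1 - η) :
    ‖u / (1 - u * s)‖ ≤ 1 / η := by
  have h1 : η ≤ ‖1 - u * s‖ := by
    have h2 : ‖(1 : ℂ)‖ - ‖u * s‖ ≤ ‖1 - u * s‖ := norm_sub_norm_le _ _
    rw [norm_one, norm_mul] at h2
    have h3 : ‖u‖ * ‖s‖ ≤ 1 * (1 - η) := mul_le_mul hu hs (norm_nonneg _) zero_le_one
    linarith
  rw [norm_div]
  exact div_le_div₀ zero_le_one hu hη h1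

theorem half {U B s : ℂ} (hU : ‖U‖ ≤ 1) (hs : ‖s‖ ≤ 1) (h0 : 1 - U * s ≠ 0) (hB : U / (1 - U * s) = B) :
    1 / 2 ≤ ‖1 + s * B‖ := by
  have e : 1 + s * B = 1 / (1 - U * s) := by
    rw [← hB, eq_div_iff h0, add_mul, mul_assoc, div_mul_cancel₀ _ h0]
    ring
  have h1 : ‖1 - U * s‖ ≤ 2 := by
    have h2 : ‖1 - U * s‖ ≤ ‖(1 : ℂ)‖ + ‖U * s‖ := norm_sub_le _ _
    rw [norm_one, norm_mul] at h2
    have h3 : ‖U‖ * ‖s‖ ≤ 1 * 1 := mul_le_mul hU hs (norm_nonneg _) zero_le_one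
    linarith
  rw [e, norm_div, norm_one]
  exact one_div_le_one_div_of_le (norm_pos_iff.2 h0) h1

/-- the bound for the shifted Cayley transform -/
theorem cayx_shift {x : ℂ} {D γ b : ℝ} (hx : ‖x‖ ≤ D) (hxi : x.im < 0) (hγ : 0 < γ) (hγ1 : γ ≤ 1) (hD : 0 ≤ D)
    (hb : |b| ≤ 1) : ‖cayx (x - γ * Complex.I) b‖ ≤ Real.sqrt (1 - 4 * γ / (D + 3) ^ 2) := by
  obtain ⟨w, hw⟩ : ∃ w : ℂ, w = x - γ * Complex.I + b := ⟨_, rfl⟩
  have him : w.im ≤ -γ := by
    rw [hw]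
    simp
    linarith
  have hwn : ‖w - Complex.I‖ ≤ D + 3 := by
    rw [hw]
    have e : x - γ * Complex.I + (b : ℂ) - Complex.I = x + ((b : ℂ) + (-(γ * Complex.I) + -Complex.I)) := by ring
    rw [e]
    have h1 : ‖(b : ℂ)‖ ≤ 1 := by
      rw [Complex.norm_real]
      exact hb
    have h2 : ‖-(γ * Complex.I : ℂ)‖ ≤ 1 := by
      rw [norm_neg, norm_mul, Complex.norm_I, mul_one, Complex.norm_real, Real.norm_of_nonneg hγ.le]
      exact hγ1
    have h3 : ‖-Complex.I‖ = 1 := by rw [norm_neg, Complex.norm_I]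
    calc _ ≤ ‖x‖ + (‖(b : ℂ)‖ + (‖-(γ * Complex.I : ℂ)‖ + ‖-Complex.I‖)) := by
          refine (norm_add_le _ _).trans (add_le_add le_rfl ?_)
          exact (norm_add_le _ _).trans (add_le_add le_rfl (norm_add_le _ _))
      _ ≤ D + 3 := by linarith
  have hsq : ∀ z : ℂ, ‖z‖ ^ 2 = z.re ^ 2 + z.im ^ 2 := fun z => by
    rw [← Complex.normSq_eq_norm_sq, Complex.normSq_apply]
    ring
  have hd : ‖w + Complex.I‖ ^ 2 = ‖w - Complex.I‖ ^ 2 + 4 * w.im := by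
    rw [hsq, hsq]
    simp
    ring
  have hpos : 0 < ‖w - Complex.I‖ ^ 2 := by
    rw [hsq]
    have : (w - Complex.I).im < 0 := by
      simp
      linarith
    nlinarith [sq_nonneg (w - Complex.I).re]
  have hle : ‖w - Complex.I‖ ^ 2 ≤ (D + 3) ^ 2 := by
    have := norm_nonneg (w - Complex.I)
    nlinarith
  apply Real.le_sqrt_of_sq_le
  have e : cayx (x - γ * Complex.I) b = (w + Complex.I) / (w - Complex.I) := by
    rw [hw]
    rfl
  rw [e, norm_div, div_pow, hd, add_div, div_self hpos.ne']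
  have h4 : 4 * γ / (D + 3) ^ 2 ≤ 4 * γ / ‖w - Complex.I‖ ^ 2 :=
    div_le_div_of_nonneg_left (by linarith) hpos hle
  have h5 : 4 * w.im / ‖w - Complex.I‖ ^ 2 ≤ -(4 * γ / ‖w - Complex.I‖ ^ 2) := by
    rw [← neg_div]
    exact div_le_div_of_nonneg_right (by linarith) hpos.le
  linarith

/-- **LEVA** -/
theorem main : S_SC1 → S_CX → S_CAUI → S_ATM → S_LEVA := by
  intro hSC hCX hCA hAT γ τ η D R ψ hψ hR hγ hγ1 hτ hη hη1 hD hf ρ' _ hρ x s hx hxi hs
  obtain ⟨hL, -, -⟩ := hAT ψ R 1 ρ' hψ hR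
  have := hL
  obtain ⟨hC1, -, -, -⟩ := hCX
  have hs1 : ‖s‖ < 1 := by linarith
  obtain ⟨w0, hw0⟩ : ∃ w0 : ℝ → ℂ, w0 = cayx (x - γ * Complex.I) := ⟨_, rfl⟩
  obtain ⟨q, hq⟩ : ∃ q : ℝ, q = Real.sqrt (1 - 4 * γ / (D + 3) ^ 2) := ⟨_, rfl⟩
  have hq0 : 0 ≤ q := hq ▸ Real.sqrt_nonneg _
  have hq1 : q ≤ 1 := by
    rw [hq]
    apply Real.sqrt_le_one.2
    have : 0 ≤ 4 * γ / (D + 3) ^ 2 := by positivity
    linarith
  have hw0q : ∀ b, |b| ≤ 1 → ‖w0 b‖ ≤ q := fun b hb => by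
    rw [hw0, hq]
    exact cayx_shift hx hxi hγ hγ1 hD hb
  have hae : ∀ᵐ b ∂ρ', |b| ≤ 1 := by
    have h1 : ∀ᵐ b ∂ρ', b ∈ Set.Icc (-1 : ℝ) 1 := by
      rw [ae_iff]
      exact hρ
    filter_upwards [h1] with b hb
    exact abs_le.2 hb
  have hmw0 : Measurable w0 := hw0 ▸ meas_cayx _
  obtain ⟨-, hb0, hU0, hU0', hU0e⟩ := hSC ρ' w0 q s hmw0 hq0 hq1
    (hae.mono fun b hb => hw0q b hb) hs1.le (by nlinarith [norm_nonneg s])
  obtain ⟨-, hb1, hU1, hU1', hU1e⟩ := hSC ((lev ψ R).conv ρ') (cayx x) 1 s (meas_cayx x) zero_le_one le_rfl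
    (Eventually.of_forall fun a => (hC1 x a hxi.le).1) hs1.le (by rw [one_mul]; exact hs1)
  -- the two averages
  have hker : ∀ b : ℝ, ‖∫ a, cayx x (a + b) / (1 - cayx x (a + b) * s) ∂(lev ψ R) - w0 b / (1 - w0 b * s)‖ ≤
      2 * τ * (1 / η) := by
    intro b
    have h1 := hf (fun a => cayx (x + b) a / (1 - cayx (x + b) a * s)) (1 / η)
      ((meas_cayx _).div (measurable_const.sub ((meas_cayx _).mul_const _)))
      (fun a => frac_le hη (hC1 (x + b) a (by simpa using hxi.le)).1 hs)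
    have h2 := hCA γ (x + b) s hγ (by simpa using hxi) hs1
    simp only [cayx_add x _ b]
    have h3 : cayx (x + b - γ * Complex.I) 0 = w0 b := by
      rw [hw0]
      unfold cayx
      rw [Complex.ofReal_zero, add_zero, show x + (b : ℂ) - γ * Complex.I = x - γ * Complex.I + b by ring]
    rw [h2, h3] at h1
    exact h1
  have hbd : ∀ a b : ℝ, ‖cayx x (a + b) / (1 - cayx x (a + b) * s)‖ ≤ 1 / η := fun a b =>
    frac_le hη (hC1 x (a + b) hxi.le).1 hs
  have hm2 : Measurable fun p : ℝ × ℝ => cayx x (p.1 + p.2) / (1 - cayx x (p.1 + p.2) * s) := by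
    have h1 : Measurable fun p : ℝ × ℝ => cayx x (p.1 + p.2) :=
      (meas_cayx x).comp (measurable_fst.add measurable_snd)
    exact h1.div (measurable_const.sub (h1.mul_const _))
  have hint : Integrable (fun p : ℝ × ℝ => cayx x (p.1 + p.2) / (1 - cayx x (p.1 + p.2) * s))
      ((lev ψ R).prod ρ') :=
    Integrable.of_bound hm2.aestronglyMeasurable (1 / η) (Eventually.of_forall fun p => hbd p.1 p.2)
  have hB : Bs ((lev ψ R).conv ρ') (cayx x) s =
      ∫ b, ∫ a, cayx x (a + b) / (1 - cayx x (a + b) * s) ∂(lev ψ R) ∂ρ' := by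
    unfold Bs
    rw [Measure.conv, integral_map (by fun_prop) ?_]
    · exact integral_prod_symm _ hint
    · exact ((meas_cayx _).div (measurable_const.sub ((meas_cayx _).mul_const _))).aestronglyMeasurable
  have hdiff : ‖Bs ((lev ψ R).conv ρ') (cayx x) s - Bs ρ' w0 s‖ ≤ 2 * τ * (1 / η) := by
    rw [hB]
    unfold Bs
    rw [← integral_sub]
    · calc _ ≤ ∫ b, ‖(∫ a, cayx x (a + b) / (1 - cayx x (a + b) * s) ∂(lev ψ R)) - w0 b / (1 - w0 b * s)‖ ∂ρ' :=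
            norm_integral_le_integral_norm _
        _ ≤ ∫ _, 2 * τ * (1 / η) ∂ρ' := by
            refine integral_mono_of_nonneg (Eventually.of_forall fun _ => norm_nonneg _) (integrable_const _)
              (Eventually.of_forall fun b => hker b)
        _ = 2 * τ * (1 / η) := by simp
    · exact hint.integral_prod_right
    · refine Integrable.of_bound (C := 1 / η)
        (hmw0.div (measurable_const.sub (hmw0.mul_const _))).aestronglyMeasurable
        (Eventually.of_forall fun b => ?_)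
      refine frac_le hη ?_ hs
      rw [hw0]
      refine (hC1 _ b ?_).1
      simp
      linarith
  have h1 := half hU1 hs1.le hU1' hU1e
  have h0 := half (hU0.trans hq1) hs1.le hU0' hU0e
  obtain ⟨B, hBe⟩ : ∃ B, B = Bs ((lev ψ R).conv ρ') (cayx x) s := ⟨_, rfl⟩
  obtain ⟨B0, hB0e⟩ : ∃ B0, B0 = Bs ρ' w0 s := ⟨_, rfl⟩
  rw [← hBe] at h1 hb1
  rw [← hB0e] at h0 hb0
  rw [← hBe, ← hB0e] at hdiff
  have e : Us ((lev ψ R).conv ρ') (cayx x) s = Us ρ' w0 s + (B - B0) / ((1 + s * B) * (1 + s * B0)) := by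
    unfold Us
    rw [← hBe, ← hB0e, div_add_div _ _ hb0 (mul_ne_zero hb1 hb0),
      div_eq_div_iff hb1 (mul_ne_zero hb0 (mul_ne_zero hb1 hb0))]
    ring
  have h3 : ‖(B - B0) / ((1 + s * B) * (1 + s * B0))‖ ≤ 8 * τ / η := by
    rw [norm_div, norm_mul]
    have h4 : 1 / 4 ≤ ‖1 + s * B‖ * ‖1 + s * B0‖ := by nlinarith
    calc ‖B - B0‖ / (‖1 + s * B‖ * ‖1 + s * B0‖) ≤ (2 * τ * (1 / η)) / (1 / 4) :=
          div_le_div₀ (by positivity) hdiff (by norm_num) h4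
      _ = 8 * τ / η := by
          field_simp
          ring
  rw [e, ← hq]
  exact (norm_add_le _ _).trans (add_le_add hU0 h3)

end Pool.Agent.Q158.WV.LEVA
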